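import Pool.Agent.StrongChow.Final

/-!
# Strong and primarily strong relative Chow groups differ

`𝒳 = [U/𝔾ₘ⁴]`, `U ⊆ 𝔸⁷`, is a smooth connected properly stable stack whose good moduli space `X` is
a separated toric threefold on which every line bundle has a positive power which is a power of
`O(D₀)` for one divisor `D₀`, and `𝒳` is generically along `D₀` the square root stack of `D₀`.  The
divisor `{t = 0}` over `D₀` is primarily strong, its class in `A¹(𝒳)_ℚ` is not zero, and no integral
closed substack of codimension one is strong.
-/

namespace Pool.Agent.Results.MP_696fc5_ag.StrongNePrimary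

open Pool.Agent.StrongChow TorusStack

universe u

/-- There are a smooth connected properly stable stack `𝒳` with (separated) good moduli space, a
codimension `c` and a primarily strong integral closed substack `𝒵` of codimension `c` whose class
in `A^c(𝒳)_ℚ` is not a `ℚ`-linear combination of classes of strong integral closed substacks of
codimension `c`. -/
theorem result (k : Type u) [Field k] :
    ∃ 𝒳 : TorusStack k, 𝒳.IsSeparated ∧ 𝒳.IsProperlyStable ∧
      ∃ (c : ℕ) (Z : 𝒳.Substack c), FiniteStabilisers Z ∧ PrimarilyStrong Z ∧
        𝒳.cls Z ∉ 𝒳.chowStrong c :=
  Example.main k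

end Pool.Agent.Results.MP_696fc5_ag.StrongNePrimary
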